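import Pool.Agent.HUK.StmtsA
import Pool.Agent.Helper59_HUK.ADH

/-!
# Squad HUK, row ADP: the substitution `t = x + n`, `y = z / d ^ h`
-/

set_option autoImplicit false

namespace Pool.Agent.HUK.H44

open Polynomial NumberField Matrix Pool.Agent.MTL Pool.Agent.MTL.H34 Pool.Agent.Helper78_MT
  Pool.Agent.HIK Pool.Agent.HIP Pool.Agent.MTPN Pool.Agent.MTN

/-! ### The substitution over a field -/

/-- `P (x + X, Z / δ)` -/
noncomputable def SS {K : Type} [Field K] (x δ : K) : K[X][X] →+* K[X][X] :=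
  (compRingHom (C (C δ⁻¹) * X)).comp (mapRingHom (compRingHom (X + C x)))

theorem SS_apply {K : Type} [Field K] (x δ : K) (P : K[X][X]) :
    SS x δ P = (P.map (compRingHom (X + C x))).comp (C (C δ⁻¹) * X) := rfl

theorem SS_C {K : Type} [Field K] (x δ : K) (p : K[X]) :
    SS x δ (C p) = C (p.comp (X + C x)) := by
  rw [SS_apply, map_C, C_comp]
  rfl

theorem SS_X {K : Type} [Field K] (x δ : K) : SS x δ X = C (C δ⁻¹) * X := by
  rw [SS_apply, map_X, X_comp]

theorem SS_deriv {K : Type} [Field K] (x δ : K) (hδ : δ ≠ 0) (P : K[X][X]) :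
    SS x δ (derivative P) = C (C δ) * derivative (SS x δ P) := by
  rw [SS_apply, SS_apply, derivative_comp, derivative_map, derivative_C_mul, derivative_X,
    mul_one, ← mul_assoc, ← C_mul, ← C_mul, mul_inv_cancel₀ hδ, C_1, C_1, one_mul]

theorem SS_eval {K : Type} [Field K] (x δ : K) (hδ : δ ≠ 0) (n y : K) (P : K[X][X]) :
    evalEval n (δ * y) (SS x δ P) = evalEval (x + n) y P := by
  have h1 : eval (C (δ * y)) (SS x δ P) = (eval (C y) P).comp (X + C x) := by
    rw [SS_apply, eval_comp, eval_mul, eval_C, eval_X, ← C_mul, ← mul_assoc,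
      inv_mul_cancel₀ hδ, one_mul, eval_map]
    have h2 : (C y : K[X]) = compRingHom (X + C x) (C y) := by
      rw [coe_compRingHom_apply, C_comp]
    conv_lhs => rw [h2]
    rw [eval₂_at_apply]
    rfl
  show eval n (eval (C (δ * y)) (SS x δ P)) = eval (x + n) (eval (C y) P)
  rw [h1, eval_comp, eval_add, eval_X, eval_C, add_comm]

/-- `SS` is an isomorphism -/
noncomputable def SE {K : Type} [Field K] (x δ : K) (hδ : δ ≠ 0) : K[X][X] ≃+* K[X][X] :=
  RingEquiv.ofRingHom (SS x δ)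
    ((mapRingHom (compRingHom (X - C x))).comp (compRingHom (C (C δ) * X)))
    (by
      apply ringHom_ext'
      · apply ringHom_ext'
        · ext a
          simp [SS]
        · simp [SS]
      · simp [SS, ← mul_assoc, ← C_mul, mul_inv_cancel₀ hδ])
    (by
      apply ringHom_ext'
      · apply ringHom_ext'
        · ext a
          simp [SS]
        · simp [SS]
      · simp [SS, ← mul_assoc, ← C_mul, inv_mul_cancel₀ hδ])

theorem SE_apply {K : Type} [Field K] (x δ : K) (hδ : δ ≠ 0) (P : K[X][X]) :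
    SE x δ hδ P = SS x δ P := rfl

theorem SS_irr {K : Type} [Field K] (x δ : K) (hδ : δ ≠ 0) (P : K[X][X]) (hP : Irreducible P) :
    Irreducible (SS x δ P) := by
  rw [← SE_apply x δ hδ]
  exact (MulEquiv.irreducible_iff (SE x δ hδ)).2 hP

theorem SS_ne {K : Type} [Field K] (x δ : K) (hδ : δ ≠ 0) (P : K[X][X]) (hP : P ≠ 0) :
    SS x δ P ≠ 0 := by
  rw [← SE_apply x δ hδ]
  intro h
  exact hP ((map_eq_zero_iff _ (SE x δ hδ).injective).1 h)

/-! ### The integral polynomials -/

section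

variable {R : Type} [CommRing R]

/-- `d ^ E q (x + X)`, `a = d x` -/
noncomputable def hm (a d : R) (E : ℕ) (q : R[X]) : R[X] :=
  ∑ i ∈ Finset.range (E + 1), C (d ^ (E - i) * q.coeff i) * (C a + C d * X) ^ i

theorem hm_zero (a d : R) (E : ℕ) : hm a d E 0 = 0 := by
  unfold hm
  refine Finset.sum_eq_zero fun i _ => ?_
  simp

theorem hm_nd (a d : R) (E : ℕ) (q : R[X]) : (hm a d E q).natDegree ≤ E := by
  unfold hm
  refine natDegree_sum_le_of_forall_le _ _ fun i hi => ?_
  refine (natDegree_C_mul_le _ _).trans ?_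
  have h1 : (C a + C d * X : R[X]).natDegree ≤ 1 := by
    rw [add_comm]
    exact natDegree_linear_le
  refine (natDegree_pow_le).trans ((Nat.mul_le_mul_left i h1).trans ?_)
  rw [mul_one]
  exact Nat.lt_succ_iff.1 (Finset.mem_range.1 hi)

theorem hm_map {K : Type} [Field K] (φ : R →+* K) (a d : R) (x : K) (hx : φ a = φ d * x) (E : ℕ)
    (q : R[X]) (hq : q.natDegree ≤ E) :
    (hm a d E q).map φ = C (φ d ^ E) * (q.map φ).comp (X + C x) := by
  have h1 : (q.map φ).comp (X + C x) =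
      ∑ i ∈ Finset.range (E + 1), C (φ (q.coeff i)) * (X + C x) ^ i := by
    unfold Polynomial.comp
    rw [eval₂_eq_sum_range' _ (Nat.lt_succ_of_le ((natDegree_map_le).trans hq))]
    refine Finset.sum_congr rfl fun i _ => ?_
    rw [coeff_map]
  unfold hm
  rw [h1, Polynomial.map_sum, Finset.mul_sum]
  refine Finset.sum_congr rfl fun i hi => ?_
  have hi' : i ≤ E := Nat.lt_succ_iff.1 (Finset.mem_range.1 hi)
  rw [Polynomial.map_mul, Polynomial.map_pow, Polynomial.map_add, Polynomial.map_mul, map_C,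
    map_C, map_C, map_X, hx]
  have h2 : C (φ d * x) + C (φ d) * X = C (φ d) * (X + C x) := by
    rw [C_mul]; ring
  rw [h2, mul_pow, map_mul, map_pow]
  have h3 : φ d ^ E = φ d ^ (E - i) * φ d ^ i := by
    rw [← pow_add, Nat.sub_add_cancel hi']
  rw [h3, C_mul, C_mul, C_pow, C_pow]
  ring

/-- `d ^ E P (x + X, Z / d ^ h)` -/
noncomputable def HM (a d : R) (h E : ℕ) (P : R[X][X]) : R[X][X] :=
  ∑ l ∈ Finset.range (P.natDegree + 1), C (hm a d (E - h * l) (P.coeff l)) * X ^ l

theorem HM_coeff (a d : R) (h E : ℕ) (P : R[X][X]) (l : ℕ) :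
    (HM a d h E P).coeff l = hm a d (E - h * l) (P.coeff l) := by
  unfold HM
  rw [finsetSum_coeff]
  simp only [coeff_C_mul, coeff_X_pow, mul_ite, mul_one, mul_zero]
  rw [Finset.sum_ite_eq]
  split_ifs with hl
  · rfl
  · rw [coeff_eq_zero_of_natDegree_lt (by
      by_contra h1
      exact hl (Finset.mem_range.2 (by omega))), hm_zero]

theorem HM_map {K : Type} [Field K] (φ : R →+* K) (a d : R) (x : K) (hx : φ a = φ d * x)
    (hd : φ d ≠ 0) (h E : ℕ) (P : R[X][X])
    (hP : ∀ l, P.coeff l ≠ 0 → h * l + (P.coeff l).natDegree ≤ E) :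
    (HM a d h E P).map (mapRingHom φ) =
      C (C (φ d ^ E)) * SS x (φ d ^ h) (P.map (mapRingHom φ)) := by
  conv_rhs => rw [P.as_sum_range_C_mul_X_pow]
  unfold HM
  rw [Polynomial.map_sum, Polynomial.map_sum, map_sum, Finset.mul_sum]
  refine Finset.sum_congr rfl fun l _ => ?_
  by_cases h0 : P.coeff l = 0
  · rw [h0, hm_zero]
    simp
  have h1 := hP l h0
  have e1 : ∀ p : K[X], SS x (φ d ^ h) (C p * X ^ l) =
      C (p.comp (X + C x)) * (C (C (φ d ^ h)⁻¹) * X) ^ l := by
    intro p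
    rw [RingHom.map_mul, RingHom.map_pow, SS_C, SS_X]
  rw [Polynomial.map_mul, Polynomial.map_mul, Polynomial.map_pow, map_C,
    map_C, map_X, e1, coe_mapRingHom, hm_map φ a d x hx _ _ (by omega), mul_pow]
  have h2 : φ d ^ E = φ d ^ (E - h * l) * (φ d ^ h) ^ l := by
    rw [← pow_mul, ← pow_add]
    congr 1
    omega
  have h3 : (φ d ^ h) ^ l ≠ 0 := pow_ne_zero _ (pow_ne_zero _ hd)
  have h4 : C (C (φ d ^ (E - h * l))) = C (C (φ d ^ E)) * C (C (φ d ^ h)⁻¹) ^ l := by
    rw [← C_pow, ← C_pow, ← C_mul, ← C_mul, h2, inv_pow, mul_assoc, mul_inv_cancel₀ h3, mul_one]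
  rw [C_mul, h4]
  ring

theorem HM_monic (a d : R) (h : ℕ) (P : R[X][X]) (hP : P.Monic) :
    (HM a d h (h * P.natDegree) P).Monic ∧
      (HM a d h (h * P.natDegree) P).natDegree ≤ P.natDegree := by
  have h1 : (HM a d h (h * P.natDegree) P).natDegree ≤ P.natDegree := by
    unfold HM
    refine natDegree_sum_le_of_forall_le _ _ fun l hl => ?_
    refine (natDegree_C_mul_X_pow_le _ _).trans ?_
    exact Nat.lt_succ_iff.1 (Finset.mem_range.1 hl)
  refine ⟨monic_of_natDegree_le_of_coeff_eq_one _ h1 ?_, h1⟩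
  rw [HM_coeff, Nat.sub_self, hP.coeff_natDegree]
  unfold hm
  simp

end

/-! ### Generic lemmas -/

theorem lift_comp {A F L : Type} [CommRing A] [IsDomain A] [Field F] [Algebra A F]
    [IsFractionRing A F] [Field L] (g : A →+* L) (hg : Function.Injective g) :
    ∃ χ : F →+* L, χ.comp (algebraMap A F) = g :=
  ⟨IsFractionRing.lift hg, RingHom.ext (IsFractionRing.lift_algebraMap hg)⟩

section

variable {R K : Type} [CommRing R] [IsDomain R] [Field K] [Algebra R K] [IsFractionRing R K]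

theorem irr_up (g : R[X][X]) (hg : g.Monic)
    (hirr : Irreducible (g.map (algebraMap R[X] (FractionRing R[X])))) :
    Irreducible (g.map (mapRingHom (algebraMap R K))) := by
  have hinj : Function.Injective ((algebraMap R[X] (FractionRing R[X])).comp (C : R →+* R[X])) :=
    (IsFractionRing.injective R[X] (FractionRing R[X])).comp C_injective
  let l : K →+* FractionRing R[X] := IsFractionRing.lift hinj
  let ψ : K[X] →+* FractionRing R[X] :=
    eval₂RingHom l (algebraMap R[X] (FractionRing R[X]) X)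
  have hψ : ψ.comp (mapRingHom (algebraMap R K)) =
      algebraMap R[X] (FractionRing R[X]) := by
    apply ringHom_ext
    · intro a
      show eval₂ l _ (Polynomial.map (algebraMap R K) (C a)) = _
      rw [map_C, eval₂_C]
      exact IsFractionRing.lift_algebraMap hinj a
    · show eval₂ l _ (Polynomial.map (algebraMap R K) X) = _
      rw [map_X, eval₂_X]
  apply Monic.irreducible_of_irreducible_map ψ _ (hg.map _)
  rw [Polynomial.map_map, hψ]
  exact hirr

theorem irr_down (g : R[X][X]) (hg : g.Monic)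
    (hirr : Irreducible (g.map (mapRingHom (algebraMap R K)))) :
    Irreducible (g.map (algebraMap R[X] (FractionRing R[X]))) := by
  have hinj : Function.Injective
      ((algebraMap K[X] (FractionRing K[X])).comp (mapRingHom (algebraMap R K))) :=
    (IsFractionRing.injective K[X] (FractionRing K[X])).comp
      (map_injective _ (IsFractionRing.injective R K))
  obtain ⟨χ, hχ⟩ := lift_comp (F := FractionRing R[X]) _ hinj
  apply Monic.irreducible_of_irreducible_map χ _ (hg.map _)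
  rw [Polynomial.map_map, hχ, ← Polynomial.map_map]
  exact (Monic.irreducible_iff_irreducible_map_fraction_map (K := FractionRing K[X])
    (hg.map _)).1 hirr

end

theorem sep_gen {R K : Type} [CommRing R] [Field K] (ι : R →+* K) (hι : Function.Injective ι)
    (a d : R) (x : K) (hx : ι a = ι d * x) (hd : ι d ≠ 0) (h D M : ℕ) (A B g : R[X][X])
    (r : R[X]) (hr : A * g + B * derivative g = C r)
    (hA : ∀ l, A.coeff l ≠ 0 → h * l + (A.coeff l).natDegree ≤ M)
    (hB : ∀ l, B.coeff l ≠ 0 → h * l + (B.coeff l).natDegree ≤ M + h)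
    (hg : ∀ l, g.coeff l ≠ 0 → h * l + (g.coeff l).natDegree ≤ h * D)
    (hrd : r.natDegree ≤ M + h * D) :
    HM a d h M A * HM a d h (h * D) g + HM a d h (M + h) B * derivative (HM a d h (h * D) g) =
      C (hm a d (M + h * D) r) := by
  apply map_injective (mapRingHom ι)
    (show Function.Injective (mapRingHom ι) from map_injective ι hι)
  rw [Polynomial.map_add, Polynomial.map_mul, Polynomial.map_mul, ← derivative_map,
    HM_map ι a d x hx hd _ _ _ hg, HM_map ι a d x hx hd _ _ _ hA, HM_map ι a d x hx hd _ _ _ hB,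
    map_C, coe_mapRingHom, hm_map ι a d x hx _ _ hrd, derivative_C_mul, C_mul]
  have h1 : SS x (ι d ^ h) (A.map (mapRingHom ι)) * SS x (ι d ^ h) (g.map (mapRingHom ι)) +
      SS x (ι d ^ h) (B.map (mapRingHom ι)) *
        (C (C (ι d ^ h)) * derivative (SS x (ι d ^ h) (g.map (mapRingHom ι)))) =
      C ((r.map ι).comp (X + C x)) := by
    rw [← SS_deriv x _ (pow_ne_zero _ hd), ← RingHom.map_mul, ← RingHom.map_mul,
      ← RingHom.map_add, ← SS_C x (ι d ^ h), derivative_map, ← Polynomial.map_mul,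
      ← Polynomial.map_mul, ← Polynomial.map_add, hr, map_C, coe_mapRingHom]
  rw [← h1]
  generalize SS x (ι d ^ h) (A.map (mapRingHom ι)) = sA
  generalize SS x (ι d ^ h) (B.map (mapRingHom ι)) = sB
  generalize SS x (ι d ^ h) (g.map (mapRingHom ι)) = sg
  simp only [C_pow]
  ring

theorem hm_ne {R K : Type} [CommRing R] [Field K] (ι : R →+* K) (hι : Function.Injective ι)
    (a d : R) (x : K) (hx : ι a = ι d * x) (hd : ι d ≠ 0) (E : ℕ) (r : R[X])
    (hrd : r.natDegree ≤ E) (hr0 : r ≠ 0) : hm a d E r ≠ 0 := by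
  intro h0
  have hrK := hm_map ι a d x hx _ _ hrd
  rw [h0, Polynomial.map_zero] at hrK
  have h1 := hrK.symm
  rw [mul_eq_zero] at h1
  rcases h1 with h1 | h1
  · exact pow_ne_zero _ hd (C_eq_zero.1 h1)
  · have h2 : r.map ι = 0 := by
      rw [comp_eq_zero_iff] at h1
      rcases h1 with h1 | h1
      · exact h1
      · exfalso
        have h3 := congrArg (fun p => coeff p 1) h1.2
        simp at h3
    exact hr0 ((Polynomial.map_eq_zero_iff hι).1 h2)

theorem zer_gen {R K : Type} [CommRing R] [Field K] [Algebra R K] (a d : R) (x : K)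
    (hx : algebraMap R K a = algebraMap R K d * x) (hd : algebraMap R K d ≠ 0) (h D : ℕ)
    (g : R[X][X]) (hg : ∀ l, g.coeff l ≠ 0 → h * l + (g.coeff l).natDegree ≤ h * D)
    (hG : (HM a d h (h * D) g).Monic) (n : ℕ) (y : K)
    (hy : evalEval (x + n) y (g.map (mapRingHom (algebraMap R K))) = 0) :
    IsIntegral R (algebraMap R K d ^ h * y) ∧
      evalEval (algebraMap R K (n : R)) (algebraMap R K d ^ h * y)
        ((HM a d h (h * D) g).map (mapRingHom (algebraMap R K))) = 0 := by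
  have h1 : evalEval (algebraMap R K (n : R)) (algebraMap R K d ^ h * y)
      ((HM a d h (h * D) g).map (mapRingHom (algebraMap R K))) = 0 := by
    rw [HM_map _ a d x hx hd _ _ _ hg, map_natCast]
    show evalEvalRingHom (n : K) (algebraMap R K d ^ h * y) (_ * _) = 0
    rw [RingHom.map_mul]
    show _ * evalEval (n : K) (algebraMap R K d ^ h * y) _ = 0
    rw [SS_eval x _ (pow_ne_zero _ hd), hy, mul_zero]
  refine ⟨⟨(HM a d h (h * D) g).map (evalRingHom (n : R)), hG.map _, ?_⟩, h1⟩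
  have h4 : (algebraMap R K).comp (evalRingHom (n : R)) =
      (evalRingHom (algebraMap R K (n : R))).comp (mapRingHom (algebraMap R K)) := by
    apply ringHom_ext
    · intro a
      simp
    · simp
  rw [← eval_map, Polynomial.map_map, h4, ← Polynomial.map_map, map_evalRingHom_eval]
  exact h1

/-! ### Houses -/

section

variable {K : Type} [Field K] [NumberField K]

theorem ho_add (z w : 𝓞 K) : house ((z + w : 𝓞 K) : K) ≤ house (z : K) + house (w : K) :=
  (congrArg house (map_add (algebraMap (𝓞 K) K) z w)).trans_le (house_add_le _ _)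

theorem ho_mul (z w : 𝓞 K) : house ((z * w : 𝓞 K) : K) ≤ house (z : K) * house (w : K) :=
  (congrArg house (map_mul (algebraMap (𝓞 K) K) z w)).trans_le (house_mul_le _ _)

theorem ho_pow (z : 𝓞 K) (n : ℕ) : house ((z ^ n : 𝓞 K) : K) ≤ house (z : K) ^ n :=
  (congrArg house (map_pow (algebraMap (𝓞 K) K) z n)).trans_le (house_pow_le _ _)

theorem ho_sum {ι : Type} (s : Finset ι) (f : ι → 𝓞 K) :
    house ((∑ i ∈ s, f i : 𝓞 K) : K) ≤ ∑ i ∈ s, house (f i : K) :=
  (congrArg house (map_sum (algebraMap (𝓞 K) K) f s)).trans_le (house_sum_le_sum_house _ _)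

theorem ho_zero : house ((0 : 𝓞 K) : K) = 0 := by
  rw [show ((0 : 𝓞 K) : K) = 0 from map_zero (algebraMap (𝓞 K) K)]
  simp [house]

theorem ho_nat (d : ℕ) : house ((d : 𝓞 K) : K) = d := by
  rw [show ((d : 𝓞 K) : K) = ((d : ℤ) : K) from by
    rw [show ((d : 𝓞 K) : K) = (d : K) from map_natCast (algebraMap (𝓞 K) K) d]
    push_cast
    rfl, house_intCast]
  push_cast
  exact abs_of_nonneg (Nat.cast_nonneg d)

theorem ho_one : house ((1 : 𝓞 K) : K) = 1 := by
  have h := ho_nat (K := K) 1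
  rw [Nat.cast_one, Nat.cast_one] at h
  exact h

theorem house_lin (a : 𝓞 K) (d : ℕ) (V : ℝ) (hd : (d : ℝ) ≤ V) (ha : house (a : K) ≤ V * V)
    (hV : 2 ≤ V) (i m : ℕ) :
    house ((((C a + C (d : 𝓞 K) * X) ^ i).coeff m : 𝓞 K) : K) ≤ (V ^ 3) ^ i := by
  induction i generalizing m with
  | zero =>
    rw [pow_zero, pow_zero, coeff_one]
    split_ifs
    · rw [ho_one]
    · rw [ho_zero]
      exact zero_le_one
  | succ i ih =>
    rw [pow_succ', add_mul, coeff_add, coeff_C_mul, mul_assoc, coeff_C_mul]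
    generalize (C a + C (d : 𝓞 K) * X) ^ i = P at *
    refine (ho_add _ _).trans ?_
    have hV0 : 0 ≤ V := by linarith
    have h4 : house (((X * P).coeff m : 𝓞 K) : K) ≤ (V ^ 3) ^ i := by
      cases m with
      | zero =>
        rw [coeff_X_mul_zero, ho_zero]
        positivity
      | succ m =>
        rw [coeff_X_mul]
        exact ih m
    have h5 : house ((a * P.coeff m : 𝓞 K) : K) ≤ V * V * (V ^ 3) ^ i :=
      (ho_mul _ _).trans (mul_le_mul ha (ih m) (house_nonneg _) (mul_nonneg hV0 hV0))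
    have h6 : house (((d : 𝓞 K) * (X * P).coeff m : 𝓞 K) : K) ≤ V * (V ^ 3) ^ i :=
      (ho_mul _ _).trans (mul_le_mul ((ho_nat d).trans_le hd) h4 (house_nonneg _) hV0)
    have h7 : V * V + V ≤ V ^ 3 := by
      nlinarith [mul_nonneg (by linarith : (0 : ℝ) ≤ V - 2) (by positivity : 0 ≤ V * V),
        mul_nonneg (by linarith : (0 : ℝ) ≤ V - 2) (by linarith : (0 : ℝ) ≤ V)]
    calc _ ≤ V * V * (V ^ 3) ^ i + V * (V ^ 3) ^ i := add_le_add h5 h6
      _ = (V * V + V) * (V ^ 3) ^ i := by ring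
      _ ≤ V ^ 3 * (V ^ 3) ^ i := mul_le_mul_of_nonneg_right h7 (by positivity)
      _ = (V ^ 3) ^ (i + 1) := by ring

theorem house_hm (a : 𝓞 K) (d : ℕ) (V c : ℝ) (hd : (d : ℝ) ≤ V) (ha : house (a : K) ≤ V * V)
    (hV : 2 ≤ V) (E : ℕ) (q : (𝓞 K)[X]) (hc : 0 ≤ c)
    (hq : ∀ i, house ((q.coeff i : 𝓞 K) : K) ≤ c) (m : ℕ) :
    house (((hm a (d : 𝓞 K) E q).coeff m : 𝓞 K) : K) ≤ c * V ^ (4 * E) := by
  unfold hm
  rw [finsetSum_coeff]
  refine (ho_sum _ _).trans ?_
  have h1 : ∀ i ∈ Finset.range (E + 1),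
      house ((((C ((d : 𝓞 K) ^ (E - i) * q.coeff i) * (C a + C (d : 𝓞 K) * X) ^ i).coeff m :
        𝓞 K)) : K) ≤ c * V ^ (3 * E) := by
    intro i hi
    have hi' : i ≤ E := Nat.lt_succ_iff.1 (Finset.mem_range.1 hi)
    rw [coeff_C_mul]
    have hV0 : 0 ≤ V := by linarith
    have h22 : house (((d : 𝓞 K) ^ (E - i) : 𝓞 K) : K) ≤ V ^ (E - i) :=
      (ho_pow _ _).trans (pow_le_pow_left₀ (house_nonneg _) ((ho_nat d).trans_le hd) _)
    have h2 : house (((d : 𝓞 K) ^ (E - i) * q.coeff i : 𝓞 K) : K) ≤ V ^ (E - i) * c :=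
      (ho_mul _ _).trans (mul_le_mul h22 (hq i) (house_nonneg _) (pow_nonneg hV0 _))
    have h23 := house_lin a d V hd ha hV i m
    generalize ((C a + C (d : 𝓞 K) * X) ^ i).coeff m = P at *
    have h24 : house (((d : 𝓞 K) ^ (E - i) * q.coeff i * P : 𝓞 K) : K) ≤
        V ^ (E - i) * c * (V ^ 3) ^ i :=
      (ho_mul _ _).trans (mul_le_mul h2 h23 (house_nonneg _)
        (mul_nonneg (pow_nonneg hV0 _) hc))
    refine h24.trans ?_
    have h3 : V ^ (E - i) * c * (V ^ 3) ^ i = c * V ^ (E - i + 3 * i) := by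
      rw [← pow_mul, pow_add]
      ring
    rw [h3]
    exact mul_le_mul_of_nonneg_left (pow_le_pow_right₀ (by linarith) (by omega)) hc
  refine (Finset.sum_le_sum h1).trans ?_
  rw [Finset.sum_const, Finset.card_range, nsmul_eq_mul]
  have h4 : ((E + 1 : ℕ) : ℝ) ≤ V ^ E := by
    have h5 : E + 1 ≤ 2 ^ E := Nat.lt_two_pow_self
    calc ((E + 1 : ℕ) : ℝ) ≤ ((2 ^ E : ℕ) : ℝ) := by exact_mod_cast h5
      _ = 2 ^ E := by push_cast; rfl
      _ ≤ V ^ E := pow_le_pow_left₀ (by norm_num) hV E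
  calc ((E + 1 : ℕ) : ℝ) * (c * V ^ (3 * E)) ≤ V ^ E * (c * V ^ (3 * E)) :=
        mul_le_mul_of_nonneg_right h4 (by positivity)
    _ = c * V ^ (4 * E) := by
        rw [show 4 * E = E + 3 * E by ring, pow_add]
        ring

end

/-- bounds for the degrees and the houses of the coefficients -/
theorem bdd {k : Type} [Field k] [NumberField k] (P : (𝓞 k)[X][X]) :
    ∃ N : ℕ, (∀ l, (P.coeff l).natDegree ≤ N) ∧ (∀ l, P.coeff l ≠ 0 → l ≤ N) ∧
      ∀ l i, house (((P.coeff l).coeff i : 𝓞 k) : k) ≤ 2 ^ N := by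
  have hb : ∀ l, ∃ H : ℕ, (P.coeff l).natDegree ≤ H ∧
      ∀ i, house (((P.coeff l).coeff i : 𝓞 k) : k) ≤ H := fun l => H59.bnd (P.coeff l)
  choose H1 h1 h2 using hb
  have hle : ∀ l ≤ P.natDegree, H1 l ≤ P.natDegree + ∑ j ∈ Finset.range (P.natDegree + 1), H1 j := by
    intro l hl
    exact (Finset.single_le_sum (f := H1) (fun _ _ => Nat.zero_le _)
      (Finset.mem_range.2 (Nat.lt_succ_of_le hl))).trans (Nat.le_add_left _ _)
  refine ⟨P.natDegree + ∑ j ∈ Finset.range (P.natDegree + 1), H1 j, ?_, ?_, ?_⟩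
  · intro l
    by_cases hl : l ≤ P.natDegree
    · exact (h1 l).trans (hle l hl)
    · rw [coeff_eq_zero_of_natDegree_lt (not_le.1 hl), natDegree_zero]
      exact Nat.zero_le _
  · intro l hl
    exact (le_natDegree_of_ne_zero hl).trans (Nat.le_add_right _ _)
  · intro l i
    by_cases hl : l ≤ P.natDegree
    · refine (h2 l i).trans ?_
      have h3 : H1 l ≤ 2 ^ (P.natDegree + ∑ j ∈ Finset.range (P.natDegree + 1), H1 j) :=
        (hle l hl).trans Nat.lt_two_pow_self.le
      exact_mod_cast h3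
    · rw [coeff_eq_zero_of_natDegree_lt (not_le.1 hl), coeff_zero, ho_zero]
      positivity

/-- Row ADP. -/
theorem adp (hoi : HoiStmt) : AdpStmt := by
  intro k _ _ g hg
  obtain ⟨A, B, r, hr0, hr⟩ := hg.sep
  obtain ⟨h, g1, g2, g3⟩ := bdd g
  obtain ⟨NA, a1, a2, -⟩ := bdd A
  obtain ⟨NB, b1, b2, -⟩ := bdd B
  obtain ⟨Nr, r1, r2⟩ := H59.bnd r
  obtain ⟨D, hD⟩ : ∃ D, D = g.natDegree := ⟨_, rfl⟩
  obtain ⟨M, hM⟩ : ∃ M, M = h * (NA + NB) + NA + NB + Nr := ⟨_, rfl⟩
  refine ⟨4 * (M + h * D) + h + Nr, ?_⟩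
  intro K _ _ j x d V hd hint hdV hxV hV
  have hιinj : Function.Injective (algebraMap (𝓞 K) K) := IsFractionRing.injective (𝓞 K) K
  obtain ⟨a, haK⟩ : ∃ a : 𝓞 K, (a : K) = (d : K) * x := ⟨⟨(d : K) * x, hint⟩, rfl⟩
  have hιd : algebraMap (𝓞 K) K (d : 𝓞 K) = (d : K) := map_natCast _ d
  have hax : algebraMap (𝓞 K) K a = algebraMap (𝓞 K) K (d : 𝓞 K) * x := by
    rw [hιd]
    exact haK
  have hd0 : algebraMap (𝓞 K) K (d : 𝓞 K) ≠ 0 := by
    rw [hιd]
    exact Nat.cast_ne_zero.2 (by omega)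
  have haV : house (a : K) ≤ V * V := by
    rw [haK, house_nat_mul]
    exact mul_le_mul hdV hxV (house_nonneg _) (by linarith)
  have hjinj : Function.Injective (RingOfIntegers.mapRingHom j) := by
    intro u v huv
    apply RingOfIntegers.ext
    exact j.injective (congrArg (fun z : 𝓞 K => (z : K)) huv)
  have hjinj1 : Function.Injective (mapRingHom (RingOfIntegers.mapRingHom j)) :=
    map_injective _ hjinj
  have hco : ∀ (P : (𝓞 k)[X][X]) l, (pj j P).coeff l =
      (P.coeff l).map (RingOfIntegers.mapRingHom j) := fun P l => coeff_map _ _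
  have hho : ∀ z : 𝓞 k, house ((RingOfIntegers.mapRingHom j z : 𝓞 K) : K) = house (z : k) :=
    fun z => hoi k K j (z : k)
  have hco0 : ∀ (P : (𝓞 k)[X][X]) l, (pj j P).coeff l ≠ 0 → P.coeff l ≠ 0 := by
    intro P l h1 h2
    apply h1
    rw [hco, h2, Polynomial.map_zero]
  have hnd : ∀ (P : (𝓞 k)[X][X]) l, ((pj j P).coeff l).natDegree ≤ (P.coeff l).natDegree := by
    intro P l
    rw [hco]
    exact natDegree_map_le
  have hgm : (pj j g).Monic := hg.monic.map _
  have hgd : (pj j g).natDegree = D := by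
    rw [hD]
    exact natDegree_map_eq_of_injective hjinj1 g
  have hgc : (pj j g).coeff D = 1 := by
    rw [← hgd]
    exact hgm.coeff_natDegree
  have hgH : ∀ l i, house ((((pj j g).coeff l).coeff i : 𝓞 K) : K) ≤ 2 ^ h := by
    intro l i
    rw [hco, coeff_map, hho]
    exact g3 l i
  have hlg : ∀ l, (pj j g).coeff l ≠ 0 → h * l + ((pj j g).coeff l).natDegree ≤ h * D := by
    intro l hl
    have h1 : l ≤ D := by
      rw [← hgd]
      exact le_natDegree_of_ne_zero hl
    rcases h1.lt_or_eq with h2 | h2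
    · have h3 := (hnd g l).trans (g1 l)
      calc h * l + ((pj j g).coeff l).natDegree ≤ h * l + h := Nat.add_le_add_left h3 _
        _ = h * (l + 1) := by ring
        _ ≤ h * D := Nat.mul_le_mul_left _ h2
    · rw [h2, hgc, natDegree_one, add_zero]
  have hlA : ∀ l, (pj j A).coeff l ≠ 0 → h * l + ((pj j A).coeff l).natDegree ≤ M := by
    intro l hl
    have h1 := a2 l (hco0 A l hl)
    have h3 := (hnd A l).trans (a1 l)
    have h4 : h * l ≤ h * NA := Nat.mul_le_mul_left _ h1
    rw [hM, mul_add]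
    omega
  have hlB : ∀ l, (pj j B).coeff l ≠ 0 → h * l + ((pj j B).coeff l).natDegree ≤ M + h := by
    intro l hl
    have h1 := b2 l (hco0 B l hl)
    have h3 := (hnd B l).trans (b1 l)
    have h4 : h * l ≤ h * NB := Nat.mul_le_mul_left _ h1
    rw [hM, mul_add]
    omega
  have hrd : (r.map (RingOfIntegers.mapRingHom j)).natDegree ≤ M + h * D := by
    refine (natDegree_map_le).trans (r1.trans ?_)
    rw [hM]
    omega
  have hr' : pj j A * pj j g + pj j B * derivative (pj j g) =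
      C (r.map (RingOfIntegers.mapRingHom j)) := by
    have h1 := congrArg (pj j) hr
    rw [RingHom.map_add, RingHom.map_mul, RingHom.map_mul] at h1
    rw [show derivative (pj j g) = pj j (derivative g) from derivative_map _ _, h1]
    exact map_C _
  have hr0' : r.map (RingOfIntegers.mapRingHom j) ≠ 0 := (Polynomial.map_ne_zero_iff hjinj).2 hr0
  have hrH : ∀ i, house (((r.map (RingOfIntegers.mapRingHom j)).coeff i : 𝓞 K) : K) ≤ 2 ^ Nr := by
    intro m
    rw [coeff_map, hho]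
    refine (r2 m).trans ?_
    exact_mod_cast (Nat.lt_two_pow_self (n := Nr)).le
  have hirr0 := irr_up (K := K) (pj j g) hgm (hg.irr K j)
  have hgK : (pj j g).map (mapRingHom (algebraMap (𝓞 K) K)) =
      g.map (mapRingHom (j.comp (algebraMap (𝓞 k) k))) := by
    show (g.map (mapRingHom (RingOfIntegers.mapRingHom j))).map (mapRingHom _) = _
    rw [Polynomial.map_map, mapRingHom_comp]
    rfl
  clear hco hho hco0 hnd
  generalize pj j g = g' at *
  generalize pj j A = A' at *
  generalize pj j B = B' at *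
  generalize r.map (RingOfIntegers.mapRingHom j) = r' at *
  have hGG : (HM a (d : 𝓞 K) h (h * D) g').Monic ∧
      (HM a (d : 𝓞 K) h (h * D) g').natDegree ≤ D := by
    have h1 := HM_monic a (d : 𝓞 K) h g' hgm
    rw [hgd] at h1
    exact h1
  have hsep := sep_gen (algebraMap (𝓞 K) K) hιinj a (d : 𝓞 K) x hax hd0 h D M A' B' g' r' hr'
    hlA hlB hlg hrd
  have hr0'' := hm_ne (algebraMap (𝓞 K) K) hιinj a (d : 𝓞 K) x hax hd0 (M + h * D) r' hrd hr0'
  have hirr : Irreducible ((HM a (d : 𝓞 K) h (h * D) g').map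
      (algebraMap (𝓞 K)[X] (FractionRing (𝓞 K)[X]))) := by
    apply irr_down (K := K) _ hGG.1
    rw [HM_map _ a (d : 𝓞 K) x hax hd0 _ _ _ hlg]
    have hu : IsUnit (C (C (algebraMap (𝓞 K) K (d : 𝓞 K) ^ (h * D))) : K[X][X]) :=
      ((IsUnit.mk0 _ (pow_ne_zero _ hd0)).map C).map C
    rw [irreducible_isUnit_mul hu]
    exact SS_irr x _ (pow_ne_zero _ hd0) _ hirr0
  have hVH : ∀ n u : ℕ, 4 * n + u ≤ 4 * (M + h * D) + h + Nr →
      (2 : ℝ) ^ u * V ^ (4 * n) ≤ V ^ (4 * (M + h * D) + h + Nr) := by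
    intro n u hnu
    calc (2 : ℝ) ^ u * V ^ (4 * n) ≤ V ^ u * V ^ (4 * n) :=
          mul_le_mul_of_nonneg_right (pow_le_pow_left₀ (by norm_num) hV u)
            (pow_nonneg (by linarith) _)
      _ = V ^ (4 * n + u) := by rw [pow_add, mul_comm]
      _ ≤ _ := pow_le_pow_right₀ (by linarith) hnu
  refine ⟨HM a (d : 𝓞 K) h (h * D) g', ⟨hGG.1, ?_, hg.deg, hirr, ?_, ?_, ?_⟩, ?_⟩
  · -- the degree
    rw [← hD]
    apply le_antisymm hGG.2
    apply le_natDegree_of_ne_zero
    rw [HM_coeff, Nat.sub_self, hgc]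
    unfold hm
    simp
  · intro l
    rw [HM_coeff]
    refine (hm_nd _ _ _ _).trans ?_
    omega
  · intro l i
    rw [HM_coeff]
    exact (house_hm a d V (2 ^ h) hdV haV hV _ _ (by positivity) (hgH l) i).trans
      (hVH _ _ (by omega))
  · refine ⟨_, _, _, hr0'', hsep, ?_, ?_⟩
    · refine (hm_nd _ _ _ _).trans ?_
      omega
    · intro i
      exact (house_hm a d V (2 ^ Nr) hdV haV hV _ _ (by positivity) hrH i).trans
        (hVH _ _ (by omega))
  · -- the zeros
    intro n y hy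
    rw [← hgK] at hy
    obtain ⟨h3, h1⟩ := zer_gen a (d : 𝓞 K) x hax hd0 h D g' hlg hGG.1 n y hy
    have h5 : IsIntegral ℤ (algebraMap (𝓞 K) K (d : 𝓞 K) ^ h * y) := isIntegral_trans _ h3
    obtain ⟨z, hz⟩ := (IsIntegralClosure.isIntegral_iff (A := 𝓞 K)).1 h5
    refine ⟨z, ?_⟩
    apply hιinj
    rw [← map_mapRingHom_evalEval, map_zero, hz]
    exact h1

end Pool.Agent.HUK.H44
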